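import Pool.Agent.MP_c69980_ag.H43.Spec2

/-!
Row Rig: an algebraic leaf is spanned by periods.
-/

set_option autoImplicit false

namespace Pool.Agent.MP_c69980_ag.H43

open MvPolynomial H60 Finset Filter Topology Metric

variable {t a M : ℕ} {w : Fin M → Option (Fin t)} {Θ : Pt t a → Fin M → ℂ}

/-- The points where the ratios satisfy `F`. -/
def RigZ (Θ : Pt t a → Fin M → ℂ) {n : ℕ} (c b : Fin (n + 1) → Fin M)
    (F : MvPolynomial (Fin (n + 1)) ℂ) : Set (Pt t a) :=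
  {x | (∀ i, Θ x (b i) ≠ 0) → eval (fun i => Θ x (c i) / Θ x (b i)) F = 0}

lemma Rig_contAt (hol : Differentiable ℂ Θ) {n : ℕ} (c b : Fin n → Fin M) {x : Pt t a}
    (hb : ∀ i, Θ x (b i) ≠ 0) :
    ContinuousAt (fun y => fun i => Θ y (c i) / Θ y (b i)) x ∧ ∀ᶠ y in 𝓝 x, ∀ i, Θ y (b i) ≠ 0 := by
  have d : ∀ c, ContinuousAt (fun y => Θ y c) x := fun c =>
    ((continuous_apply c).comp hol.continuous).continuousAt
  exact ⟨continuousAt_pi.2 fun i => (d _).div (d _) (hb i),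
    eventually_all.2 fun i => (d _).eventually_ne (hb i)⟩

lemma Rig_closed (hol : Differentiable ℂ Θ) {n : ℕ} (c b : Fin (n + 1) → Fin M)
    (F : MvPolynomial (Fin (n + 1)) ℂ) : IsClosed (RigZ Θ c b F) := by
  rw [← isOpen_compl_iff, isOpen_iff_mem_nhds]
  intro x hx
  have hb : ∀ i, Θ x (b i) ≠ 0 := by_contra fun h => hx fun h' => absurd h' h
  have hF : eval (fun i => Θ x (c i) / Θ x (b i)) F ≠ 0 := fun h => hx fun _ => h
  obtain ⟨h1, h2⟩ := Rig_contAt hol c b hb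
  have h3 := ((MvPolynomial.continuous_eval F).continuousAt.comp h1).eventually_ne hF
  filter_upwards [h2, h3] with y a1 a2 hy
  exact a2 (hy a1)

lemma Rig_lam (g : GA w Θ) {n : ℕ} {c b : Fin (n + 1) → Fin M} {F : MvPolynomial (Fin (n + 1)) ℂ}
    {x y : Pt t a} (hx : x ∈ RigZ Θ c b F) (h : y - x ∈ Lam Θ) : y ∈ RigZ Θ c b F := by
  obtain ⟨l, e⟩ := (g.par y x).2 h
  intro hb
  have e' : ∀ c, Θ y c = l * Θ x c := congrFun e
  have n0 : ∀ i, l ≠ 0 ∧ Θ x (b i) ≠ 0 := fun i => mul_ne_zero_iff.1 (e' _ ▸ hb i)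
  have := hx fun i => (n0 i).2
  have e2 : (fun i => Θ y (c i) / Θ y (b i)) = fun i => Θ x (c i) / Θ x (b i) := by
    funext i
    rw [e', e', mul_div_mul_left _ _ (n0 i).1]
  rw [e2]
  exact this

lemma Rig_cx (h3 : SHom) (hol : Differentiable ℂ Θ) {n : ℕ} {c b : Fin (n + 1) → Fin M}
    {F : MvPolynomial (Fin (n + 1)) ℂ} {x e : Pt t a}
    (h : ∀ r : ℝ, x + (r : ℂ) • e ∈ RigZ Θ c b F) (z : ℂ) : x + z • e ∈ RigZ Θ c b F := by
  obtain ⟨H, -, -, hH⟩ := h3 M _ c b F _ le_rfl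
  have d : ∀ c, AnalyticOnNhd ℂ (fun z : ℂ => Θ (x + z • e) c) Set.univ := fun c z _ => by
    refine Differentiable.analyticAt (fun z => ?_) z
    exact differentiableAt_pi.1 ((hol _).comp z (by fun_prop)) c
  have hg : AnalyticOnNhd ℂ (fun z : ℂ => (∏ i, Θ (x + z • e) (b i)) * aeval (Θ (x + z • e)) H)
      Set.univ := fun z hz =>
    (Finset.analyticAt_fun_prod _ fun i _ => d _ z hz).mul
      (AnalyticAt.aeval_mvPolynomial (fun c => d c z hz) H)
  have ht : Tendsto (fun r : ℝ => (r : ℂ)) (𝓝[≠] 0) (𝓝[≠] 0) := by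
    refine tendsto_nhdsWithin_iff.2 ⟨?_, ?_⟩
    · simpa using (Complex.continuous_ofReal.tendsto 0).mono_left nhdsWithin_le_nhds
    · filter_upwards [self_mem_nhdsWithin] with r hr
      simpa using hr
  have h0 := hg.eq_of_frequently_eq (g := fun _ => 0) analyticOnNhd_const (z₀ := 0)
    (ht.frequently (Eventually.frequently (Eventually.of_forall fun r => by
      by_cases hb : ∀ i, Θ (x + (r : ℂ) • e) (b i) ≠ 0
      · rw [hH ℂ _ hb, aeval_eq_eval, h r hb, mul_zero, mul_zero]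
      · push Not at hb
        obtain ⟨i, hi⟩ := hb
        rw [Finset.prod_eq_zero (mem_univ i) hi, zero_mul])))
  intro hb
  have h1 := congrFun h0 z
  have h2 : ∏ i, Θ (x + z • e) (b i) ≠ 0 := Finset.prod_ne_zero_iff.2 fun i _ => hb i
  simp only [hH ℂ _ hb, aeval_eq_eval] at h1
  exact (mul_eq_zero.1 ((mul_eq_zero.1 h1).resolve_left h2)).resolve_left (pow_ne_zero _ h2)

/-- A real direction along which the relations persist lies in `V`. -/
lemma Rig_key (h1 : SLb) (h3 : SHom) (g : GA1 w Θ) (V : Submodule ℂ (Pt t a)) (q e : Pt t a)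
    (h : ∀ c b : Fin (Module.finrank ℂ V + 1) → Fin M, ∃ F, F ≠ 0 ∧
      ∀ u ∈ V, ∀ r : ℝ, q + u + (r : ℂ) • e ∈ RigZ Θ c b F) : e ∈ V := by
  have h4 := h1 t a M w Θ g q (V ⊔ Submodule.span ℂ {e}) (Module.finrank ℂ V) fun c b => by
    obtain ⟨F, hF, h'⟩ := h c b
    refine ⟨F, hF, fun x hx => ?_⟩
    obtain ⟨u, hu, y, hy, e1⟩ := Submodule.mem_sup.1 hx
    obtain ⟨z, rfl⟩ := Submodule.mem_span_singleton.1 hy
    have e2 : x = q + u + z • e := by rw [add_assoc, e1]; abel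
    rw [e2]
    exact Rig_cx h3 g.hol (h' u hu) z
  rw [Submodule.eq_of_le_of_finrank_le le_sup_left h4]
  exact Submodule.mem_sup_right (Submodule.mem_span_singleton_self e)

/-- The part of top weight of a polynomial. -/
lemma Rig_top {ι : Type} [Fintype ι] (F : MvPolynomial ι ℂ) (hF : F ≠ 0) (σ : ι → ℝ) :
    ∃ G : MvPolynomial ι ℂ, G ≠ 0 ∧
      (∀ (y : ι → ℂ) (s : ℝ), eval y G = 0 →
        eval (fun i => (Real.exp (s * σ i) : ℂ) * y i) G = 0) ∧
      ∀ (y : ℕ → ι → ℂ) (y₀ : ι → ℂ) (m : ℕ → ℝ), Tendsto y atTop (𝓝 y₀) → Tendsto m atTop atTop →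
        (∀ᶠ k in atTop, eval (fun i => (Real.exp (m k * σ i) : ℂ) * y k i) F = 0) →
        eval y₀ G = 0 := by
  classical
  let wt : (ι →₀ ℕ) → ℝ := fun d => ∑ i, d i * σ i
  obtain ⟨d₀, hd₀, hmax⟩ := F.support.exists_max_image wt (support_nonempty.2 hF)
  have hp : ∀ (d : ι →₀ ℕ) (y : ι → ℂ) (s : ℝ), ∏ i, ((Real.exp (s * σ i) : ℂ) * y i) ^ d i =
      (Real.exp (s * wt d) : ℂ) * ∏ i, y i ^ d i := by
    intro d y s
    simp only [mul_pow, Finset.prod_mul_distrib, wt, Finset.mul_sum, Real.exp_sum,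
      Complex.ofReal_prod]
    congr 1
    refine Finset.prod_congr rfl fun i _ => ?_
    rw [← Complex.ofReal_pow, ← Real.exp_nat_mul]
    congr 2
    ring
  have hG : ∀ y : ι → ℂ, eval y (∑ d ∈ F.support.filter (fun d => wt d = wt d₀),
      monomial d (coeff d F)) =
      ∑ d ∈ F.support.filter (fun d => wt d = wt d₀), coeff d F * ∏ i, y i ^ d i := by
    intro y
    rw [map_sum]
    refine Finset.sum_congr rfl fun d _ => ?_
    rw [eval_monomial, Finsupp.prod_fintype _ _ (by simp)]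
  refine ⟨∑ d ∈ F.support.filter (fun d => wt d = wt d₀), monomial d (coeff d F), fun h0 => ?_,
    fun y s hy => ?_, fun y y₀ m hy hm h => ?_⟩
  · have := congrArg (coeff d₀) h0
    simp only [coeff_sum, coeff_monomial, Finset.sum_ite_eq', mem_filter, hd₀, and_self, if_true,
      coeff_zero] at this
    exact mem_support_iff.1 hd₀ this
  · rw [hG] at hy ⊢
    rw [← mul_zero (Real.exp (s * wt d₀) : ℂ), ← hy, Finset.mul_sum]
    refine Finset.sum_congr rfl fun d hd => ?_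
    rw [hp, (mem_filter.1 hd).2]
    ring
  · have hl : Tendsto (fun k => ∑ d ∈ F.support,
        (Real.exp (m k * (wt d - wt d₀)) : ℂ) * (coeff d F * ∏ i, y k i ^ d i)) atTop
        (𝓝 (∑ d ∈ F.support, (if wt d = wt d₀ then 1 else 0) * (coeff d F * ∏ i, y₀ i ^ d i))) := by
      refine tendsto_finsetSum _ fun d hd => Tendsto.mul ?_ (Tendsto.const_mul _
        (tendsto_finsetProd _ fun i _ => (tendsto_pi_nhds.1 hy i).pow _))
      split_ifs with e
      · simp [e]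
      · have hlt : wt d - wt d₀ < 0 := sub_neg.2 (lt_of_le_of_ne (hmax d hd) e)
        exact (Complex.continuous_ofReal.tendsto 0).comp
          (Real.tendsto_exp_atBot.comp (hm.atTop_mul_const_of_neg hlt))
    have h0 : ∀ᶠ k in atTop, ∑ d ∈ F.support,
        (Real.exp (m k * (wt d - wt d₀)) : ℂ) * (coeff d F * ∏ i, y k i ^ d i) = 0 := by
      filter_upwards [h] with k hk
      rw [eval_eq'] at hk
      rw [← mul_zero (Real.exp (-(m k * wt d₀)) : ℂ), ← hk, Finset.mul_sum]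
      refine Finset.sum_congr rfl fun d _ => ?_
      rw [hp, mul_sub, sub_eq_add_neg, Real.exp_add, Complex.ofReal_mul]
      ring
    have h1 := tendsto_nhds_unique hl (tendsto_const_nhds.congr' (h0.mono fun k hk => hk.symm))
    rw [hG, Finset.sum_filter]
    refine Eq.trans (Finset.sum_congr rfl fun d _ => ?_) h1
    split_ifs <;> simp

lemma Rig_re_cast (p : Pt t a) (j : Fin t) :
    reT p (Fin.castAdd a j) = ((p (Fin.castAdd a j)).re : ℂ) := by
  simp [reT, inT]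

lemma Rig_re_nat (p : Pt t a) (i : Fin a) : reT p (Fin.natAdd t i) = 0 := by
  simp [reT, inT]

lemma Rig_re_add (p v : Pt t a) (r : ℝ) : reT (p + (r : ℂ) • v) = reT p + (r : ℂ) • reT v := by
  funext i
  refine Fin.addCases (fun j => ?_) (fun j => ?_) i <;> simp [Rig_re_cast, Rig_re_nat]

lemma Rig_re_sub (v : Pt t a) : reT (v - reT v) = 0 := by
  funext i
  refine Fin.addCases (fun j => ?_) (fun j => ?_) i <;> simp [Rig_re_cast, Rig_re_nat]

lemma Rig_re_I (v : Pt t a) : reT (Complex.I • reT v) = 0 := by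
  funext i
  refine Fin.addCases (fun j => ?_) (fun j => ?_) i <;> simp [Rig_re_cast, Rig_re_nat]

lemma Rig_re_zero : reT (0 : Pt t a) = 0 := by
  funext i
  refine Fin.addCases (fun j => ?_) (fun j => ?_) i <;> simp [Rig_re_cast, Rig_re_nat]

lemma Rig_act (g : GA1 w Θ) (v : Pt t a) : ∃ ρ : Fin M → ℝ, ∀ (y : Pt t a) (s : ℝ) (c : Fin M),
    Θ (y + (s : ℂ) • reT v) c = (Real.exp (s * ρ c) : ℂ) * Θ y c := by
  refine ⟨fun c => (w c).elim 0 fun j => (v (Fin.castAdd a j)).re, fun y s c => ?_⟩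
  have e : (s : ℂ) • reT v = inT a fun j => (s : ℂ) * ((v (Fin.castAdd a j)).re : ℂ) := by
    funext i
    refine Fin.addCases (fun j => ?_) (fun j => ?_) i <;> simp [Rig_re_cast, Rig_re_nat, inT]
  rw [e, g.act]
  beta_reduce
  cases w c <;> simp

/-- The periods form a group. -/
def RigL (g : GA w Θ) : AddSubgroup (Pt t a) :=
  AddSubgroup.ofSub (Lam Θ) ⟨0, 1, (one_smul _ _).symm⟩ g.lsub

lemma Rig_memL (g : GA w Θ) (x : Pt t a) : x ∈ RigL g ↔ x ∈ Lam Θ := Iff.rfl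

/-- Step 1: `V` is stable under the real part of the torus coordinates. -/
lemma Rig_one (h1 : SLb) (h3 : SHom) (g : GA w Θ) {p : Pt t a} {V : Submodule ℂ (Pt t a)}
    (h : Dep Θ (Module.finrank ℂ V) {x | x - p ∈ V}) {v : Pt t a} (hv : v ∈ V) : reT v ∈ V := by
  obtain ⟨R, hR⟩ := g.per
  choose x hx hb using fun m : ℕ => hR (p + ((m : ℝ) : ℂ) • v)
  obtain ⟨q, -, φ, hφ, hq⟩ := tendsto_subseq_of_bounded (isBounded_closedBall (x := 0) (r := R))
    (x := fun m : ℕ => p + ((m : ℝ) : ℂ) • v - reT (p + ((m : ℝ) : ℂ) • v) - x m)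
    fun m => mem_closedBall_zero_iff.2 (hb m)
  obtain ⟨ρ, hρ⟩ := Rig_act g.toGA1 v
  refine Rig_key h1 h3 g.toGA1 V (q + reT p) _ fun c b => ?_
  obtain ⟨F, hF, hZ⟩ := h c b
  obtain ⟨G, hG, G1, G2⟩ := Rig_top F hF fun i => ρ (c i) - ρ (b i)
  have hr : ∀ (y : Pt t a) (s : ℝ), (fun i => Θ (y + (s : ℂ) • reT v) (c i) /
      Θ (y + (s : ℂ) • reT v) (b i)) =
      fun i => (Real.exp (s * (ρ (c i) - ρ (b i))) : ℂ) * (Θ y (c i) / Θ y (b i)) := by
    intro y s
    funext i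
    rw [hρ, hρ, mul_sub, Real.exp_sub, Complex.ofReal_div, div_mul_div_comm]
  have hn : ∀ (y : Pt t a) (s : ℝ) (i : Fin M), Θ (y + (s : ℂ) • reT v) i ≠ 0 ↔ Θ y i ≠ 0 := by
    intro y s i
    rw [hρ, mul_ne_zero_iff, and_iff_right (Complex.ofReal_ne_zero.2 (Real.exp_ne_zero _))]
  refine ⟨G, hG, fun u hu s hb' => ?_⟩
  have hb0 : ∀ i, Θ (q + reT p + u) (b i) ≠ 0 := fun i => (hn _ _ _).1 (hb' i)
  rw [hr]
  refine G1 _ s ?_
  obtain ⟨c1, c2⟩ := Rig_contAt g.hol c b hb0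
  have hq' := (hq.add_const (reT p)).add_const u
  refine G2 _ _ (fun k => (φ k : ℝ)) (c1.tendsto.comp hq')
    (tendsto_natCast_atTop_atTop.comp hφ.tendsto_atTop) ?_
  filter_upwards [hq'.eventually c2] with k hk
  simp only [Function.comp_apply] at hk ⊢
  rw [← hr]
  refine Rig_lam g (x := p + (((φ k : ℝ) : ℂ) • v + u)) (hZ _ ?_) ?_ fun i => (hn _ _ _).2 (hk i)
  · simpa using V.add_mem (V.smul_mem _ hv) hu
  · rw [Rig_re_add, ← Rig_memL g]
    convert (RigL g).neg_mem ((Rig_memL g _).2 (hx (φ k))) using 1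
    abel

/-- Step 2: the periods are discrete modulo `V`. -/
lemma Rig_two (h1 : SLb) (h3 : SHom) (g : GA w Θ) {p : Pt t a} {V : Submodule ℂ (Pt t a)}
    (h : Dep Θ (Module.finrank ℂ V) {x | x - p ∈ V}) (π : Pt t a →L[ℂ] Pt t a)
    (p1 : ∀ v ∈ V, π v = 0) (p2 : ∀ x, x - π x ∈ V) :
    ∃ ε : ℝ, 0 < ε ∧ ∀ x ∈ Lam Θ, ‖π x‖ < ε → x ∈ V := by
  by_contra hc
  push Not at hc
  choose x hx hn hV using fun m : ℕ => hc (1 / ((m : ℝ) + 1)) Nat.one_div_pos_of_nat
  have n0 : ∀ m, 0 < ‖π (x m)‖ := fun m => norm_pos_iff.2 fun h0 => hV m (by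
    simpa [h0] using p2 (x m))
  have hl : Tendsto (fun m => ‖π (x m)‖) atTop (𝓝 0) :=
    squeeze_zero (fun m => (n0 m).le) (fun m => (hn m).le) tendsto_one_div_add_atTop_nhds_zero_nat
  obtain ⟨e, he, φ, hφ, hq⟩ := (isCompact_sphere (0 : Pt t a) 1).tendsto_subseq
    (x := fun m => ((‖π (x m)‖⁻¹ : ℝ) : ℂ) • π (x m)) fun m => by
      rw [mem_sphere_zero_iff_norm, norm_smul, Complex.norm_real, norm_inv, norm_norm,
        inv_mul_cancel₀ (n0 m).ne']
  have pp : ∀ y, π (π y) = π y := fun y => by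
    have := p1 _ (p2 y)
    rw [map_sub, sub_eq_zero] at this
    exact this.symm
  have hπ : π e = e := by
    refine tendsto_nhds_unique ((π.continuous.tendsto e).comp hq) ?_
    refine hq.congr fun m => ?_
    simp only [Function.comp_apply, map_smul, pp]
  have heV : e ∈ V := by
    refine Rig_key h1 h3 g.toGA1 V p e fun c b => ?_
    obtain ⟨F, hF, hZ⟩ := h c b
    refine ⟨F, hF, fun u hu s => ?_⟩
    have k1 : Tendsto (fun m => (⌊s / ‖π (x (φ m))‖⌋ : ℝ) * ‖π (x (φ m))‖) atTop (𝓝 s) := by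
      refine tendsto_of_tendsto_of_tendsto_of_le_of_le (g := fun m => s - ‖π (x (φ m))‖)
        (h := fun _ => s) ?_ tendsto_const_nhds (fun m => ?_) fun m => ?_
      · simpa using (hl.comp hφ.tendsto_atTop).const_sub s
      · have := mul_le_mul_of_nonneg_right (Int.sub_one_lt_floor (s / ‖π (x (φ m))‖)).le
          (n0 (φ m)).le
        rwa [sub_mul, div_mul_cancel₀ _ (n0 _).ne', one_mul] at this
      · have := mul_le_mul_of_nonneg_right (Int.floor_le (s / ‖π (x (φ m))‖)) (n0 (φ m)).le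
        rwa [div_mul_cancel₀ _ (n0 _).ne'] at this
    have k2 := (((Complex.continuous_ofReal.tendsto s).comp k1).smul hq).const_add (p + u)
    refine (Rig_closed g.hol c b F).mem_of_tendsto k2 (Eventually.of_forall fun m => ?_)
    simp only [Function.comp_apply]
    rw [smul_smul, ← Complex.ofReal_mul, mul_inv_cancel_right₀ (n0 _).ne', Complex.ofReal_intCast,
      Int.cast_smul_eq_zsmul]
    refine Rig_lam g (x := p + (u - ⌊s / ‖π (x (φ m))‖⌋ • (x (φ m) - π (x (φ m)))))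
      (hZ _ ?_) ?_
    · simpa only [Set.mem_ofPred_eq, add_sub_cancel_left] using
        V.sub_mem hu (V.toAddSubgroup.zsmul_mem (p2 _) _)
    · rw [← Rig_memL g]
      convert (RigL g).zsmul_mem ((Rig_memL g _).2 (hx (φ m))) ⌊s / ‖π (x (φ m))‖⌋ using 1
      rw [smul_sub]
      abel
  rw [p1 e heV] at hπ
  rw [← hπ] at he
  simp at he

/-- Step 3: vectors of `V` in the compact directions. -/
lemma Rig_three (g : GA w Θ) {V : Submodule ℂ (Pt t a)} (π : Pt t a →L[ℂ] Pt t a)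
    (p1 : ∀ v ∈ V, π v = 0) {ε : ℝ} (hε : 0 < ε) (hd : ∀ x ∈ Lam Θ, ‖π x‖ < ε → x ∈ V)
    {v : Pt t a} (hv : v ∈ V) (h0 : reT v = 0) :
    v ∈ Submodule.span ℂ (V ∩ Lam Θ : Set (Pt t a)) := by
  obtain ⟨R, hR⟩ := g.per
  choose x hx hb using fun m : ℕ => hR (0 + ((m : ℝ) : ℂ) • v)
  simp only [Rig_re_add, h0, Rig_re_zero, smul_zero, add_zero, sub_zero] at hb
  simp only [zero_add] at hb
  obtain ⟨q, -, φ, hφ, hq⟩ := tendsto_subseq_of_bounded (isBounded_closedBall (x := 0) (r := R))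
    (x := fun m : ℕ => ((m : ℝ) : ℂ) • v - x m) fun m => mem_closedBall_zero_iff.2 (hb m)
  have hq' := (π.continuous.tendsto q).comp hq
  obtain ⟨m₀, hm⟩ := Metric.cauchySeq_iff'.1 hq'.cauchySeq ε hε
  have hS : ∀ m, m₀ ≤ m → x (φ m₀) - x (φ m) ∈ Submodule.span ℂ (V ∩ Lam Θ : Set (Pt t a)) := by
    intro m hm'
    have l1 := g.lsub _ (hx (φ m₀)) _ (hx (φ m))
    refine Submodule.subset_span ⟨hd _ l1 ?_, l1⟩
    have := hm m hm'
    simp only [Function.comp_apply, map_sub, map_smul, p1 v hv, smul_zero, dist_eq_norm,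
      zero_sub, neg_sub_neg] at this
    rwa [map_sub]
  have k1 : Tendsto (fun m => (((φ m : ℝ) - φ m₀)⁻¹ : ℝ)) atTop (𝓝 0) :=
    tendsto_inv_atTop_zero.comp (tendsto_atTop_add_const_right _ _
      (tendsto_natCast_atTop_atTop.comp hφ.tendsto_atTop))
  have k2 := (((Complex.continuous_ofReal.tendsto 0).comp k1).smul
    (hq.sub_const ((((φ m₀ : ℕ) : ℝ) : ℂ) • v - x (φ m₀)))).const_sub v
  rw [Complex.ofReal_zero, zero_smul, sub_zero] at k2
  refine (Submodule.closed_of_finiteDimensional _).mem_of_tendsto k2 ?_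
  filter_upwards [eventually_gt_atTop m₀] with m hm'
  have n0 : ((φ m : ℝ) - φ m₀) ≠ 0 := sub_ne_zero.2 (by exact_mod_cast (hφ hm').ne')
  have e : (((φ m : ℕ) : ℝ) : ℂ) • v - x (φ m) - ((((φ m₀ : ℕ) : ℝ) : ℂ) • v - x (φ m₀)) =
      ((((φ m : ℝ) - φ m₀ : ℝ)) : ℂ) • v + (x (φ m₀) - x (φ m)) := by
    rw [Complex.ofReal_sub, sub_smul]
    abel
  simp only [Function.comp_apply]
  rw [e, smul_add, smul_smul, ← Complex.ofReal_mul, inv_mul_cancel₀ n0, Complex.ofReal_one,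
    one_smul, sub_add_cancel_left]
  exact neg_mem (Submodule.smul_mem _ _ (hS m hm'.le))

theorem sRig (h1 : SLb) (_h2 : SDisc) (h3 : SHom) : SRig := by
  intro t a M w Θ g p V h v hv
  obtain ⟨P, hP⟩ := V.subtype.exists_leftInverse_of_injective V.ker_subtype
  let π : Pt t a →L[ℂ] Pt t a := LinearMap.toContinuousLinearMap (LinearMap.id - V.subtype ∘ₗ P)
  have p1 : ∀ v ∈ V, π v = 0 := fun v hv => by
    have := congrArg Subtype.val (LinearMap.congr_fun hP ⟨v, hv⟩)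
    exact sub_eq_zero.2 this.symm
  have p2 : ∀ x, x - π x ∈ V := fun x => by
    change x - (x - (P x : Pt t a)) ∈ V
    rw [sub_sub_cancel]
    exact (P x).2
  obtain ⟨ε, hε, hd⟩ := Rig_two h1 h3 g h π p1 p2
  have hr := Rig_one h1 h3 g h hv
  have a1 := Rig_three g π p1 hε hd (V.sub_mem hv hr) (Rig_re_sub v)
  have a2 := Rig_three g π p1 hε hd (V.smul_mem Complex.I hr) (Rig_re_I v)
  have e : v = (v - reT v) + (-Complex.I) • (Complex.I • reT v) := by
    rw [smul_smul, neg_mul, Complex.I_mul_I, neg_neg, one_smul, sub_add_cancel]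
  rw [e]
  exact add_mem a1 (Submodule.smul_mem _ _ a2)

end Pool.Agent.MP_c69980_ag.H43
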