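import Pool.Agent.MP_c69980_ag.H43.Spec6

/-! Logarithmic derivations have regular velocity. -/

set_option autoImplicit false

namespace Pool.Agent.MP_c69980_ag.H43

open MvPolynomial H60 Finset Filter Topology

section
variable {Ω : Type} [Field Ω] [Algebra ℂ Ω] {k : Subfield ℂ} {G : Subring (Ω × ℂ)}

lemma gkval_ev (hk : ∀ c ∈ k, (algebraMap ℂ Ω c, c) ∈ G) {ι : Type} {P : MvPolynomial ι ℂ}
    (hP : Cf k P) {x : ι → Ω} {z : ι → ℂ} (h : ∀ i, (x i, z i) ∈ G) :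
    (aeval x P, eval z P) ∈ G := by
  obtain ⟨P', rfl⟩ := cf_iff.1 hP
  clear hP
  induction P' using MvPolynomial.induction_on with
  | C c => simpa using hk _ c.2
  | add p q hp hq => simpa using add_mem hp hq
  | mul_X p i hp => simpa using mul_mem hp (h i)

lemma gkval_vf (hk : ∀ c ∈ k, (algebraMap ℂ Ω c, c) ∈ G) {t M n : ℕ}
    {P : Fin n → CI M t → CP M t} (hP : ∀ i x, Cf k (P i x)) {g : Fin n → Ω} {v : Fin n → ℂ}
    (hg : ∀ i, (g i, v i) ∈ G) {x : CI M t → Ω} {z : CI M t → ℂ} (h : ∀ i, (x i, z i) ∈ G)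
    (s : CI M t) : (vf P g x s, vf P v z s) ∈ G := by
  have := sum_mem fun i (_ : i ∈ univ) => mul_mem (hg i) (gkval_ev hk (hP i s) h)
  convert this using 1
  ext
  · simp [vf, Prod.fst_sum]
  · simp [vf_eq, Prod.snd_sum]

/-- The graph of a homomorphism on a subring. -/
lemma gkval_gr {B : Type} [CommRing B] (i : B →+* Ω) (hi : Function.Injective i) (χ : B →+* ℂ) :
    ∃ G : Subring (Ω × ℂ), (∀ b, (i b, χ b) ∈ G) ∧ (∀ x z z', (x, z) ∈ G → (x, z') ∈ G → z = z') ∧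
      ∀ x z, (x, z) ∈ G → ∃ b, i b = x ∧ χ b = z := by
  have h : ∀ x z, (x, z) ∈ (i.prod χ).range → ∃ b, i b = x ∧ χ b = z := fun x z ⟨b, hb⟩ =>
    ⟨b, Prod.ext_iff.1 hb⟩
  refine ⟨(i.prod χ).range, fun b => ⟨b, rfl⟩, fun x z z' h1 h2 => ?_, h⟩
  obtain ⟨b, rfl, rfl⟩ := h _ _ h1
  obtain ⟨b', e, rfl⟩ := h _ _ h2
  rw [hi e]

/-- Reduction modulo the maximal ideal, with values in `ℂ`. -/
lemma gkval_res (h2 : SEmb) (hk : Countable k) (Ω₀ : Subfield Ω) (h0 : Countable Ω₀)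
    (V : ValuationSubring Ω) (h1 : ∀ c ∈ k, algebraMap ℂ Ω c ∈ Ω₀)
    (hV : ∀ c, algebraMap ℂ Ω c ∈ V) :
    ∃ G : Subring (Ω × ℂ), (∀ c ∈ k, (algebraMap ℂ Ω c, c) ∈ G) ∧
      (∀ x ∈ V, x ∈ Ω₀ → ∃ z, (x, z) ∈ G) ∧ ∀ x z, (x, z) ∈ G → V.valuation x < 1 → z = 0 := by
  let A : Subring Ω := V.toSubring ⊓ Ω₀.toSubring
  let r : A →+* IsLocalRing.ResidueField V :=
    (IsLocalRing.residue V).comp (Subring.inclusion inf_le_left)
  let j : k →+* A := ((algebraMap ℂ Ω).comp k.subtype).codRestrict A fun c => ⟨hV _, h1 _ c.2⟩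
  letI : Algebra k r.range := (r.rangeRestrict.comp j).toAlgebra
  have : Countable A := (Subring.inclusion_injective (inf_le_right : A ≤ Ω₀.toSubring)).countable
  have : Countable r.range := r.rangeRestrict_surjective.countable
  obtain ⟨ψ, -⟩ := h2.1 k hk r.range (Cardinal.mk_le_aleph0.trans Cardinal.aleph0_le_continuum)
  obtain ⟨G, a, -, b⟩ := gkval_gr A.subtype Subtype.val_injective
    (ψ.toRingHom.comp r.rangeRestrict)
  refine ⟨G, fun c hc => ?_, fun x hx hx' => ⟨_, a ⟨x, hx, hx'⟩⟩, fun x z hz hx => ?_⟩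
  · have := a (j ⟨c, hc⟩)
    rwa [show (ψ.toRingHom.comp r.rangeRestrict) (j ⟨c, hc⟩) = c from ψ.commutes ⟨c, hc⟩] at this
  · obtain ⟨u, rfl, rfl⟩ := b x z hz
    have : r.rangeRestrict u = 0 := Subtype.ext
      ((IsLocalRing.residue_eq_zero_iff _).2 ((V.valuation_lt_one_iff _).2 hx))
    rw [RingHom.comp_apply, this, map_zero]

end

lemma gkval_rel {t a M : ℕ} {w : Fin M → Option (Fin t)} {Θ : Pt t a → Fin M → ℂ} {PP : PT M t a}
    {k : Subfield ℂ} (h : GD w Θ PP k) {β : Cht M t} {p : Pt t a} (hp : Ch w β (Θ p))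
    (v : Pt t a) (c : Fin M) (o : Option (Fin t)) :
    vf (PP β) v (co β (Θ p)) (c, none) =
      co β (Θ p) (c, o) * vf (PP β) v (co β (Θ p)) (β o, none) +
        co β (Θ p) (β o, none) * vf (PP β) v (co β (Θ p)) (c, o) := by
  have d : ∀ c, DifferentiableAt ℂ (fun q => Θ q c) p := fun c => differentiableAt_pi.1 (h.hol p) c
  have dc : ∀ x, DifferentiableAt ℂ (fun q => co β (Θ q) x) p := fun x => by
    simp only [co, div_eq_mul_inv]
    exact (d _).mul ((d _).inv (hp _).2)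
  have e : (fun q => co β (Θ q) (c, none)) =ᶠ[𝓝 p]
      fun q => co β (Θ q) (c, o) * co β (Θ q) (β o, none) := by
    filter_upwards [(d _).continuousAt.eventually_ne (hp o).2] with q hq
    simp only [co]
    rw [div_mul_div_cancel₀ hq]
  rw [← h.der β p v _ hp, ← h.der β p v _ hp, ← h.der β p v _ hp, e.fderiv_eq,
    fderiv_fun_mul (dc _) (dc _)]
  rfl

theorem sGKval (h1 : SDown) (h2 : SEmb) : SGKval := by
  intro t a M w Θ PP hE Ω _ _ y δ g β V hy hV hβ hg v1 v2 v3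
  obtain ⟨k, hk, h⟩ := hE.exists
  obtain ⟨Ω₀, φ, D, p, c0, hT, a1, a2, a3, a4⟩ := h1 t a M w Θ k Ω Unit Unit
    (fun _ => δ.restrictScalars ℤ) (fun _ => y) (Set.range g) hk h.clh
    (fun _ c _ => δ.map_algebraMap c) (fun _ => hy) (Set.countable_range g)
  obtain ⟨G, g1, g2, g3⟩ := gkval_gr Ω₀.subtype Subtype.val_injective φ
  have gk : ∀ c ∈ k, (algebraMap ℂ Ω c, c) ∈ G := fun c hc => by
    obtain ⟨e, he⟩ := a1 c hc
    simpa [he] using g1 ⟨_, e⟩
  have gy : ∀ c b, (y c / y b, Θ (p ()) c / Θ (p ()) b) ∈ G := fun c b => by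
    obtain ⟨e, he⟩ := a4 () c b
    simpa [he] using g1 ⟨_, e⟩
  have gd : ∀ x z, (x, z) ∈ G → (δ x, D () z) ∈ G := fun x z hz => by
    obtain ⟨b, rfl, rfl⟩ := g3 x z hz
    obtain ⟨e, he⟩ := a3 () b
    rw [he]
    exact g1 ⟨_, e⟩
  have gi : ∀ x x' z, (x, z) ∈ G → (x', z) ∈ G → x = x' := fun x x' z h1 h2 => by
    obtain ⟨b, rfl, rfl⟩ := g3 _ _ h1
    obtain ⟨b', rfl, e⟩ := g3 _ _ h2
    rw [φ.injective e]
  set v : Pt t a := fun i => φ ⟨g i, hT ⟨i, rfl⟩⟩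
  have gg : ∀ i, (g i, v i) ∈ G := fun i => g1 ⟨g i, _⟩
  have hp : Ch w β (Θ (p ())) := fun o => ⟨(hβ o).1, fun e => by
    have := gy (β o) (β o)
    rw [div_self (hβ o).2, e, zero_div] at this
    exact one_ne_zero (g2 _ _ _ G.one_mem this)⟩
  have tan : Tan Θ (D ()) (p ()) v := (h.tan_iff hp).2 fun x =>
    g2 _ _ _ (gd _ _ (gy _ _)) (by
      rw [show δ (y x.1 / y (β x.2)) = _ from hg β hβ x]
      exact gkval_vf gk (h.cf β) gg (fun x => gy _ _) x)
  obtain ⟨t1, t2⟩ := h.tanA β _ _ _ hp tan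
  obtain ⟨p', -, hp', e'⟩ := h.norm β _ hp
  have gx : ∀ x, (xc w β y x, xc w β (Θ (p ())) x) ∈ G := fun x => gy _ _
  have gv := gkval_vf gk (h.cf β) gg gx
  have w1 : ∀ c, vf (PP β) g (xc w β y) (c, w c) ∈ V := fun c => by
    have := gd _ _ (gx (c, none))
    rw [t1] at this
    exact gi _ _ _ this (gv _) ▸ v2 _
  have w2 : ∀ o, vf (PP β) g (xc w β y) (β o, none) ∈ V := fun o => by
    have := gd (eta β y o) (eta β (Θ (p ())) o) (gy _ _)
    rw [t2] at this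
    have e : _ = eta β y o * vf (PP β) g (xc w β y) (β o, none) :=
      gi _ _ _ this (mul_mem (gy (β o) (β none)) (gv (β o, none)))
    have n : eta β y o ≠ 0 := div_ne_zero (hβ o).2 (hβ none).2
    have := v3 o
    rwa [e, mul_div_cancel_left₀ _ n] at this
  have x1 : ∀ o, xc w β y (β o, none) = 1 := fun o => by
    simp only [xc, (hβ o).1, div_self (hβ o).2]
  have w3 : ∀ c o, vf (PP β) g (xc w β y) (c, none) =
      xc w β y (c, none) * vf (PP β) g (xc w β y) (β o, none) + vf (PP β) g (xc w β y) (c, o) := by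
    intro c o
    have e := gkval_rel h hp' v c o
    rw [e'] at e
    have := add_mem (mul_mem (gx (c, o)) (gv (β o, none)))
      (mul_mem (gx (β o, none)) (gv (c, o)))
    rw [x1, Prod.mk_mul_mk, Prod.mk_mul_mk, Prod.mk_add_mk, ← e, one_mul] at this
    exact gi _ _ _ (gv _) this
  have w4 : ∀ x, vf (PP β) g (xc w β y) x ∈ V := fun ⟨c, o⟩ => by
    rw [← sub_eq_iff_eq_add'.2 (w3 c o), w3 c (w c)]
    exact sub_mem (add_mem (mul_mem (v1 _) (w2 _)) (w1 c)) (mul_mem (v1 _) (w2 _))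
  obtain ⟨H, b1, b2, b3⟩ := gkval_res h2 hk Ω₀ c0 V (fun c hc => (a1 c hc).1) hV
  choose z hz using fun x => b2 _ (v1 x) (a4 () x.1 (β (w x.1))).1
  obtain ⟨q, hq, eq⟩ := h.spec (y := z) hp' fun P hP e => by
    have := gkval_ev gk hP gx
    rw [← e', e] at this
    exact b3 _ _ (gkval_ev b1 hP hz) (by rw [gi _ _ _ this G.zero_mem]; simp)
  intro i
  by_contra hi
  have : Nonempty (Fin (t + a)) := ⟨i⟩
  obtain ⟨j, hj⟩ := Finite.exists_max fun i => V.valuation (g i)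
  have lt : 1 < V.valuation (g j) := (not_le.1 (mt (V.valuation_le_one_iff _).1 hi)).trans_le (hj i)
  have n0 : g j ≠ 0 := fun e => by simp [e] at lt
  choose u hu using fun l => b2 (g l / g j) (by
    rw [← V.valuation_le_one_iff, map_div₀]
    exact div_le_one_of_le₀ (hj l) zero_le) (div_mem (hT ⟨l, rfl⟩) (hT ⟨j, rfl⟩))
  have u0 : u = 0 := h.imm β q u hq fun x => by
    rw [eq]
    refine b3 _ _ (gkval_vf b1 (h.cf β) hu hz x) ?_
    have : vf (PP β) (fun l => g l / g j) (xc w β y) x = vf (PP β) g (xc w β y) x / g j := by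
      simp only [vf, sum_div]
      exact sum_congr rfl fun _ _ => by ring
    rw [this, map_div₀, div_lt_one₀ (zero_lt_one.trans lt)]
    exact ((V.valuation_le_one_iff _).2 (w4 x)).trans_lt lt
  have := sub_mem (hu j) H.one_mem
  rw [div_self n0, u0] at this
  simpa using b3 _ _ this (by simp)

end Pool.Agent.MP_c69980_ag.H43
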